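import Pool.Agent.Helper36.BN.Exchange

/-!
# Every graph has a cycle basis of logarithmic ply

For a finite simple graph `G` on `n ≥ 2` vertices there is a basis of the cycle space (over the
field with two elements) such that every edge is in at most `23 log n + 22` members.  The order
of magnitude is best possible (graphs with `(1 + ε) n` edges and girth of order `log n`), and the
best bound known so far was `O(log² n)` (Freedman and Hastings).  In particular the inequality
`bn(G) ≤ c k` of the question is true, with `c` depending only on `A`, for all graphs with at most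
`2 ^ (A k)` vertices.

Proof: choose a basis that minimises the sum over the edges of `2 ^ ply`.  For the weights
`2 ^ ply` of the edges there is a basis whose total weight is at most `O(log n)` times the total
weight of the edges (contraction of edges in series, and a short cycle if all degrees are at least
three).  The two bases are matched so that each single exchange gives a basis again; since no
exchange lowers the potential, the average of the ply for the weights `2 ^ ply` is `O(log n)`, and
this bounds the maximum.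
-/

set_option autoImplicit false

namespace Pool.Agent.Results.MP_35885f_co.LogarithmicPly

open Finset Module

theorem even_iff {V : Type} [Fintype V] {G : SimpleGraph V} [Fintype G.edgeSet] [DecidableEq V]
    (z : G.edgeSet → ZMod 2) (v : V) :
    Even (Nat.card {e : G.edgeSet // v ∈ (e : Sym2 V) ∧ z e = 1}) ↔
      ∑ e : G.edgeSet, (if v ∈ (e : Sym2 V) then z e else 0) = 0 := by
  classical
  rw [Nat.card_eq_fintype_card, Fintype.card_subtype, ← ZMod.natCast_eq_zero_iff_even,
    card_filter, Nat.cast_sum]
  refine Eq.congr (sum_congr rfl fun e _ => ?_) rfl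
  by_cases h : v ∈ (e : Sym2 V)
  · rcases Pool.Agent.Helper36.BN.z2 (z e) with h' | h' <;> simp [h, h']
  · simp [h]

/-- The cycle space of `G`: a vector `x` on the edges (with values in the field with two elements)
belongs to it if every vertex is on an even number of edges `e` with `x e = 1`. -/
noncomputable def cycleSpace {V : Type} [Fintype V] (G : SimpleGraph V) :
    Submodule (ZMod 2) (G.edgeSet → ZMod 2) where
  carrier := {x | ∀ v : V, Even (Nat.card {e : G.edgeSet // v ∈ (e : Sym2 V) ∧ x e = 1})}
  zero_mem' := by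
    intro v
    simp
  add_mem' := by
    classical
    intro x y hx hy v
    rw [even_iff]
    have h1 := (even_iff x v).1 (hx v)
    have h2 := (even_iff y v).1 (hy v)
    have h3 : ∑ e : G.edgeSet, (if v ∈ (e : Sym2 V) then (x + y) e else 0) =
        ∑ e : G.edgeSet, (if v ∈ (e : Sym2 V) then x e else 0) +
        ∑ e : G.edgeSet, (if v ∈ (e : Sym2 V) then y e else 0) := by
      rw [← sum_add_distrib]
      exact sum_congr rfl fun e _ => by split_ifs <;> simp
    rw [h3, h1, h2, add_zero]
  smul_mem' := by
    intro c x hx v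
    rcases Pool.Agent.Helper36.BN.z2 c with h | h
    · subst h; simp
    · subst h; simpa using hx v

/-- The number of members of the basis `b` of the cycle space that contain the edge `e`. -/
noncomputable def ply {V : Type} [Fintype V] {G : SimpleGraph V} {ι : Type}
    (b : Basis ι (ZMod 2) (cycleSpace G)) (e : G.edgeSet) : ℕ :=
  Nat.card {i : ι // (b i : G.edgeSet → ZMod 2) e = 1}

/-- The basis number: the least `m` such that the cycle space has a basis in which every edge is
in at most `m` members. -/
noncomputable def basisNumber {V : Type} [Fintype V] (G : SimpleGraph V) : ℕ :=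
  sInf {m | ∃ b : Basis (Fin (finrank (ZMod 2) (cycleSpace G))) (ZMod 2) (cycleSpace G),
    ∀ e, ply b e ≤ m}

open Pool.Agent.Helper36.BN in
theorem eq_cyc {V : Type} [Fintype V] [DecidableEq V] (G : SimpleGraph V) [Fintype G.edgeSet]
    [DecidableEq G.edgeSet] :
    cycleSpace G = cyc (fun e : G.edgeSet => (Quot.out (e : Sym2 V)).1)
      (fun e : G.edgeSet => (Quot.out (e : Sym2 V)).2) univ := by
  ext x
  have h1 : ∀ v : V, ∀ e : G.edgeSet, x e * inc (fun e : G.edgeSet => (Quot.out (e : Sym2 V)).1)
      (fun e : G.edgeSet => (Quot.out (e : Sym2 V)).2) v e =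
      if v ∈ (e : Sym2 V) then x e else 0 := by
    intro v e
    have h2 : s((Quot.out (e : Sym2 V)).1, (Quot.out (e : Sym2 V)).2) = (e : Sym2 V) := by
      exact Quot.out_eq (e : Sym2 V)
    have h3 : (Quot.out (e : Sym2 V)).1 ≠ (Quot.out (e : Sym2 V)).2 := by
      have : G.Adj (Quot.out (e : Sym2 V)).1 (Quot.out (e : Sym2 V)).2 := by
        rw [← SimpleGraph.mem_edgeSet, h2]
        exact e.2
      exact this.ne
    have h4 : v ∈ (e : Sym2 V) ↔ v = (Quot.out (e : Sym2 V)).1 ∨ v = (Quot.out (e : Sym2 V)).2 := by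
      rw [← Sym2.mem_iff, h2]
    unfold inc
    by_cases h5 : (Quot.out (e : Sym2 V)).1 = v
    · have h6 : ¬ (Quot.out (e : Sym2 V)).2 = v := fun h => h3 (h5.trans h.symm)
      rw [if_pos h5, if_neg h6, if_pos (h4.2 (Or.inl h5.symm))]
      simp
    · by_cases h6 : (Quot.out (e : Sym2 V)).2 = v
      · rw [if_neg h5, if_pos h6, if_pos (h4.2 (Or.inr h6.symm))]
        simp
      · rw [if_neg h5, if_neg h6, if_neg]
        · simp
        · rw [h4]
          rintro (h | h)
          · exact h5 h.symm
          · exact h6 h.symm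
  rw [mem_cyc]
  constructor
  · intro hx
    refine ⟨fun e he => absurd (mem_univ e) he, fun v => ?_⟩
    rw [sum_congr rfl fun e _ => h1 v e]
    exact (even_iff x v).1 (hx v)
  · intro hx v
    rw [even_iff, ← sum_congr rfl fun e _ => h1 v e]
    exact hx.2 v

/-- a basis chosen from a generating list -/
theorem basis_of_list {E : Type} [Fintype E] [DecidableEq E] {C : Submodule (ZMod 2) (E → ZMod 2)}
    {X : List (E → ZMod 2)} (hX : Pool.Agent.Helper36.BN.spn X = C) (w : E → ℕ) :
    ∃ b : Basis (Fin (finrank (ZMod 2) C)) (ZMod 2) C,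
      ∑ i, Pool.Agent.Helper36.BN.wt w (b i : E → ZMod 2) ≤
        Pool.Agent.Helper36.BN.total w X := by
  classical
  obtain ⟨B, hBX, hBspan, hBli⟩ := exists_linearIndependent (ZMod 2) {x | x ∈ X}
  have hspan : Submodule.span (ZMod 2) B = C := by rw [hBspan]; exact hX
  have hBfin : B.Finite := by
    refine Set.Finite.subset (List.finite_toSet X) ?_
    exact hBX
  have : Fintype B := hBfin.fintype
  let b₁ : Basis B (ZMod 2) (Submodule.span (ZMod 2) (Set.range (Subtype.val : B → E → ZMod 2))) :=
    Basis.span hBli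
  have hr : Submodule.span (ZMod 2) (Set.range (Subtype.val : B → E → ZMod 2)) = C := by
    rw [Subtype.range_coe]; exact hspan
  let b₂ : Basis B (ZMod 2) C := b₁.map (LinearEquiv.ofEq _ _ hr)
  have hb₂ : ∀ i : B, (b₂ i : E → ZMod 2) = i.1 := by
    intro i
    simp only [b₂, Basis.map_apply, LinearEquiv.coe_ofEq_apply]
    exact congrArg Subtype.val (Basis.span_apply hBli i)
  have hcard : Fintype.card B = finrank (ZMod 2) C := (Module.finrank_eq_card_basis b₂).symm
  let φ : B ≃ Fin (finrank (ZMod 2) C) := Fintype.equivFinOfCardEq hcard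
  refine ⟨b₂.reindex φ, ?_⟩
  have h1 : ∑ i, Pool.Agent.Helper36.BN.wt w ((b₂.reindex φ) i : E → ZMod 2) =
      ∑ i : B, Pool.Agent.Helper36.BN.wt w i.1 := by
    rw [← Equiv.sum_comp φ]
    refine sum_congr rfl fun i _ => ?_
    rw [Basis.reindex_apply, Equiv.symm_apply_apply, hb₂]
  have h2 : ∑ i : B, Pool.Agent.Helper36.BN.wt w i.1 =
      ∑ x ∈ B.toFinset, Pool.Agent.Helper36.BN.wt w x :=
    (Finset.sum_subtype B.toFinset (fun x => Set.mem_toFinset) _).symm
  have h3 : ∑ x ∈ B.toFinset, Pool.Agent.Helper36.BN.wt w x ≤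
      ∑ x ∈ X.toFinset, Pool.Agent.Helper36.BN.wt w x := by
    apply sum_le_sum_of_subset
    intro x hx
    rw [Set.mem_toFinset] at hx
    exact List.mem_toFinset.2 (hBX hx)
  have h4 : ∀ Y : List (E → ZMod 2), ∑ x ∈ Y.toFinset, Pool.Agent.Helper36.BN.wt w x ≤
      Pool.Agent.Helper36.BN.total w Y := by
    intro Y
    induction Y with
    | nil => simp
    | cons a Y ih =>
      unfold Pool.Agent.Helper36.BN.total at ih ⊢
      rw [List.toFinset_cons, List.map_cons, List.sum_cons]
      by_cases h : a ∈ Y.toFinset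
      · rw [insert_eq_of_mem h]; omega
      · rw [sum_insert h]; omega
  rw [h1, h2]
  exact h3.trans (h4 X)

theorem log_three_halves : (2 : ℝ) / 5 ≤ Real.log (1 + 1 / 2) := by
  rw [Real.le_log_iff_exp_le (by norm_num)]
  have h1 : Real.exp (2 / 5) ^ 5 = Real.exp 1 ^ 2 := by
    rw [← Real.exp_nat_mul, ← Real.exp_nat_mul]; norm_num
  have h2 := Real.exp_one_lt_d9
  have h3 : Real.exp 1 ^ 2 ≤ (1 + 1 / 2 : ℝ) ^ 5 := by
    have h4 : 0 < Real.exp 1 := Real.exp_pos 1
    nlinarith
  rw [← h1] at h3
  exact le_of_pow_le_pow_left₀ (by norm_num) (by norm_num) h3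

/-- The bound for one graph. -/
theorem main {V : Type} [Fintype V] (G : SimpleGraph V) (hV : 2 ≤ Fintype.card V) :
    (basisNumber G : ℝ) ≤ 23 * Real.log (Fintype.card V) + 22 := by
  classical
  set n := Fintype.card V with hn
  let s : G.edgeSet → V := fun e => (Quot.out (e : Sym2 V)).1
  let t : G.edgeSet → V := fun e => (Quot.out (e : Sym2 V)).2
  have hC : cycleSpace G = Pool.Agent.Helper36.BN.cyc s t univ := eq_cyc G
  let L : ℕ := ⌈Pool.Agent.Helper36.BN.bound n⌉₊
  have hL : Pool.Agent.Helper36.BN.bound n ≤ L := Nat.le_ceil _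
  obtain ⟨b, hb⟩ := Pool.Agent.Helper36.BN.small_ply
    (ι := Fin (finrank (ZMod 2) (cycleSpace G))) (C := cycleSpace G) L (by
      intro w
      obtain ⟨X, hX, hXw⟩ := Pool.Agent.Helper36.BN.cheap L hL (univ : Finset G.edgeSet).card univ
        rfl s t w
      obtain ⟨b, hb⟩ := basis_of_list (hX.trans hC.symm) w
      exact ⟨b, hb.trans hXw⟩)
  have h1 : basisNumber G ≤ 2 * L + Nat.log 2 (Fintype.card G.edgeSet) := by
    apply Nat.sInf_le
    refine ⟨b, fun e => ?_⟩
    refine le_trans (le_of_eq ?_) (hb e)
    unfold ply Pool.Agent.Helper36.BN.ply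
    rw [Nat.card_eq_fintype_card, Fintype.card_subtype]
    congr 1
    ext i
    simp only [mem_filter, mem_univ, true_and]
    exact Pool.Agent.Helper36.BN.z2_ne.symm
  have hE : Fintype.card G.edgeSet ≤ n ^ 2 := by
    have h2 : Fintype.card G.edgeSet ≤ n.choose 2 := by
      rw [← SimpleGraph.edgeFinset_card]
      exact SimpleGraph.card_edgeFinset_le_card_choose_two
    have h3 : n.choose 2 ≤ n ^ 2 := Nat.choose_le_pow n 2
    exact h2.trans h3
  have hn0 : (0 : ℝ) < n := by exact_mod_cast (by omega : 0 < n)
  have hlog0 : 0 ≤ Real.log n := Real.log_natCast_nonneg _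
  have hlog2 : (Nat.log 2 (Fintype.card G.edgeSet) : ℝ) ≤ 2 * Real.log n / Real.log 2 := by
    have h2 : Nat.log 2 (Fintype.card G.edgeSet) ≤ Nat.log 2 (n ^ 2) := Nat.log_mono_right hE
    have h3 : (Nat.log 2 (n ^ 2) : ℝ) ≤ Real.logb 2 ((n ^ 2 : ℕ) : ℝ) := Real.natLog_le_logb _ _
    have h4 : Real.logb 2 ((n ^ 2 : ℕ) : ℝ) = 2 * Real.log n / Real.log 2 := by
      rw [Real.logb, Nat.cast_pow, Real.log_pow]
      norm_num
    have h5 : (Nat.log 2 (Fintype.card G.edgeSet) : ℝ) ≤ (Nat.log 2 (n ^ 2) : ℝ) := by
      exact_mod_cast h2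
    linarith
  have h2 : (L : ℝ) ≤ Pool.Agent.Helper36.BN.bound n + 1 := by
    apply (Nat.ceil_lt_add_one _).le
    unfold Pool.Agent.Helper36.BN.bound
    have h3 : 0 ≤ Real.log (1 + 1 / 2) := (Real.log_pos (by norm_num)).le
    have := div_nonneg hlog0 h3
    linarith
  have h3 : Real.log n / Real.log (1 + 1 / 2) ≤ 5 / 2 * Real.log n := by
    have h4 := log_three_halves
    rw [div_le_iff₀ (by linarith)]
    nlinarith
  have h4 : 2 * Real.log n / Real.log 2 ≤ 2.9 * Real.log n := by
    have h5 := Real.log_two_gt_d9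
    rw [div_le_iff₀ (by linarith)]
    nlinarith
  have h5 : (basisNumber G : ℝ) ≤ 2 * L + Nat.log 2 (Fintype.card G.edgeSet) := by
    exact_mod_cast h1
  unfold Pool.Agent.Helper36.BN.bound at h2
  linarith

/-- **Logarithmic ply.**
(1) Every graph on `n ≥ 2` vertices has basis number at most `23 log n + 22`.
(2) For every `A ≥ 0` and `k ≥ 1`, every graph on at least two and at most `2 ^ (A k)` vertices
(whatever its treewidth) has basis number at most `(16 A + 22) k`.
(3) The infimum in the definition of the basis number is attained. -/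
theorem result :
    (∀ (V : Type) [Fintype V] (G : SimpleGraph V), 2 ≤ Fintype.card V →
      (basisNumber G : ℝ) ≤ 23 * Real.log (Fintype.card V) + 22) ∧
    (∀ (A : ℝ) (k : ℕ) (V : Type) [Fintype V] (G : SimpleGraph V), 0 ≤ A → 1 ≤ k →
      2 ≤ Fintype.card V → (Fintype.card V : ℝ) ≤ 2 ^ (A * k) →
      (basisNumber G : ℝ) ≤ (16 * A + 22) * k) ∧
    (∀ (V : Type) [Fintype V] (G : SimpleGraph V),
      ∃ b : Basis (Fin (finrank (ZMod 2) (cycleSpace G))) (ZMod 2) (cycleSpace G),
        ∀ e, ply b e ≤ basisNumber G) := by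
  refine ⟨fun V _ G hV => main G hV, fun A k V _ G hA hk hV hn => ?_, fun V _ G => ?_⟩
  · have h1 := main G hV
    have hn0 : (0 : ℝ) < Fintype.card V := by exact_mod_cast (by omega : 0 < Fintype.card V)
    have h2 : Real.log (Fintype.card V) ≤ A * k * Real.log 2 := by
      have := Real.log_le_log hn0 hn
      rwa [Real.log_rpow (by norm_num)] at this
    have h3 := Real.log_two_lt_d9
    have h4 : (1 : ℝ) ≤ k := by exact_mod_cast hk
    have h5 : 0 ≤ A * k := by positivity
    have h6 : A * k * Real.log 2 ≤ A * k * 0.6932 := by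
      apply mul_le_mul_of_nonneg_left _ h5
      linarith
    nlinarith
  · classical
    have hne : {m | ∃ b : Basis (Fin (finrank (ZMod 2) (cycleSpace G))) (ZMod 2) (cycleSpace G),
        ∀ e, ply b e ≤ m}.Nonempty := by
      refine ⟨finrank (ZMod 2) (cycleSpace G), finBasis (ZMod 2) (cycleSpace G), fun e => ?_⟩
      unfold ply
      refine (Nat.card_le_card_of_injective _ Subtype.val_injective).trans ?_
      simp
    exact Nat.sInf_mem hne

end Pool.Agent.Results.MP_35885f_co.LogarithmicPly
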