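import Pool.Agent.Helper21.BN.Spec
import Pool.Agent.Helper21.BN.TREE1
import Pool.Agent.Helper21.BN.TREE2
import Pool.Agent.Helper21.BN.WT
import Pool.Agent.Helper21.BN.MM
import Pool.Agent.Helper21.BN.C3
import Pool.Agent.Helper21.BN.GL
import Pool.Agent.Helper83.BN.QDM
import Pool.Agent.Results.MP_35885f_co.LogarithmicPly

/-!
# The fractional basis number is at most the order of the logarithm of the treewidth

The cycle space, the ply and the basis number are those of the hand-in `LogarithmicPly`:
`cycleSpace G` is the space of the vectors on the edges (values in the field with two elements)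
such that every vertex is on an even number of edges with value one; `ply b e` is the number of
members of the basis `b` that contain the edge `e`; `basisNumber G` is the least possible maximum
of the ply over all bases of the cycle space.

Let `s = 8 log2 (18 k + 7) + 9` and let `G` have treewidth at most `k`.  Then there is a probability
distribution on the bases of the cycle space such that the expected ply of every edge is at most
`s`; for all nonnegative weights of the edges there is a basis whose total weight is at most `s`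
times the weight of the graph; and `bn(G) ≤ log2 |E| + 2 s`.

Proof: it is enough to find in every subgraph that is not a forest a cycle that meets at most `s`
series classes (then delete a heaviest class of that cycle, and so on).  Take a lowest node of the
tree such that the edges below it contain more than `k` independent cycles.  The edges below it, or
a part of them, have between `1` and `3 k + 1` independent cycles and are separated from the rest
by at most `k + 1` vertices, so they meet at most `18 k + 6` series classes of the whole graph, and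
a bound of Moore type gives a cycle meeting `O(log k)` of them.  The distribution exists by linear
programming duality, and the last bound follows by the exchange argument of `LogarithmicPly`.
-/

set_option autoImplicit false

namespace Pool.Agent.Results.MP_35885f_co.FractionalTreewidth

open Finset Module LogarithmicPly

/-- `G` has a tree decomposition all of whose bags have at most `k + 1` vertices: the bags are
indexed by the nodes of a finite tree, the nodes whose bags contain a given vertex form a nonempty
connected subtree, and the ends of every edge are in a common bag. -/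
def HasTreeDecomposition {V : Type} (G : SimpleGraph V) (k : ℕ) : Prop :=
  ∃ (N : Type) (_ : Finite N) (T : SimpleGraph N) (B : N → Finset V), T.IsTree ∧
    (∀ v, (T.induce {x | v ∈ B x}).Connected) ∧
    (∀ v w, G.Adj v w → ∃ x, v ∈ B x ∧ w ∈ B x) ∧
    ∀ x, (B x).card ≤ k + 1

/-- the treewidth -/
noncomputable def treewidth {V : Type} (G : SimpleGraph V) : ℕ :=
  sInf {k | HasTreeDecomposition G k}

/-- the number `8 log2 (18 k + 7) + 9` (integer part of the logarithm) -/
def s (k : ℕ) : ℕ := 8 * Nat.log 2 (18 * k + 7) + 9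

theorem attained {V : Type} [Fintype V] (G : SimpleGraph V) :
    HasTreeDecomposition G (treewidth G) := by
  have hne : {k | HasTreeDecomposition G k}.Nonempty := by
    refine ⟨Fintype.card V, Unit, inferInstance, ⊥, fun _ => univ,
      SimpleGraph.IsTree.of_subsingleton, fun v => ?_, fun v w _ => ⟨(), mem_univ v, mem_univ w⟩,
      fun i => ?_⟩
    · have : Nonempty ({x : Unit | v ∈ (univ : Finset V)} : Set Unit) := ⟨⟨(), mem_univ v⟩⟩
      exact SimpleGraph.Connected.of_subsingleton
    · rw [card_univ]; omega
  exact Nat.sInf_mem hne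

theorem mono {V : Type} {G : SimpleGraph V} {k l : ℕ} (h : k ≤ l)
    (hG : HasTreeDecomposition G k) : HasTreeDecomposition G l := by
  obtain ⟨N, hN, T, B, h1, h2, h3, h4⟩ := hG
  exact ⟨N, hN, T, B, h1, h2, h3, fun x => (h4 x).trans (by omega)⟩

section

variable {V : Type} [Fintype V] [DecidableEq V] (G : SimpleGraph V)

/-- incidence vectors -/
def inc (e : G.edgeSet) (v : V) : ZMod 2 := if v ∈ (e : Sym2 V) then 1 else 0

theorem inc_link (e : G.edgeSet) :
    ∃ a b : V, a ≠ b ∧ inc G e = Pi.single a 1 + Pi.single b 1 := by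
  obtain ⟨e, he⟩ := e
  induction e with
  | h a b =>
    have hab : G.Adj a b := he
    refine ⟨a, b, hab.ne, ?_⟩
    funext v
    simp only [inc, Sym2.mem_iff, Pi.add_apply, Pi.single_apply]
    by_cases h1 : v = a
    · subst h1
      simp [hab.ne]
    · by_cases h2 : v = b
      · subst h2
        simp [h1]
      · simp [h1, h2]

theorem cyc_univ [Fintype G.edgeSet] [DecidableEq G.edgeSet] :
    BN.cyc (inc G) univ = cycleSpace G := by
  ext x
  constructor
  · rintro ⟨-, h2⟩ v
    refine (even_iff x v).2 (Eq.trans (sum_congr rfl fun e _ => ?_) (h2 v))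
    simp [inc]
  · intro hx
    refine ⟨fun e he => absurd (mem_univ e) he, fun v => ?_⟩
    refine Eq.trans (sum_congr rfl fun e _ => ?_) ((even_iff x v).1 (hx v))
    simp [inc]

theorem below_root {N : Type} (r : N) (p : N → N) (dep : N → ℕ)
    (h : ∀ x, x ≠ r → dep x = dep (p x) + 1) (x : N) : BN.Below r p r x := by
  induction hn : dep x using Nat.strong_induction_on generalizing x with
  | _ m ih =>
    by_cases hx : x = r
    · subst hx
      exact Relation.ReflTransGen.refl
    · have h1 := h x hx
      exact Relation.ReflTransGen.head ⟨hx, rfl⟩ (ih (dep (p x)) (by omega) (p x) rfl)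

/-- the exponent -/
def expo (k : ℕ) : ℕ := 4 * (Nat.log 2 (18 * k + 7) + 1)

theorem expo_lt (k : ℕ) : (18 * k + 7) * 5 ^ expo k < 6 ^ expo k := by
  unfold expo
  set L := Nat.log 2 (18 * k + 7) with hL
  have h1 : 18 * k + 7 < 2 ^ (L + 1) := Nat.lt_pow_succ_log_self (by norm_num) _
  rw [pow_mul, pow_mul]
  calc (18 * k + 7) * (5 ^ 4) ^ (L + 1) < 2 ^ (L + 1) * (5 ^ 4) ^ (L + 1) :=
        Nat.mul_lt_mul_of_pos_right h1 (by positivity)
    _ = (2 * 5 ^ 4) ^ (L + 1) := by rw [mul_pow]
    _ ≤ (6 ^ 4) ^ (L + 1) := Nat.pow_le_pow_left (by norm_num) _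

theorem s_eq (k : ℕ) : 2 * expo k + 1 = s k := by
  unfold expo s; ring

variable {G}

/-- a cycle that meets few series classes -/
theorem few [Fintype G.edgeSet] [DecidableEq G.edgeSet] (k : ℕ) (hG : HasTreeDecomposition G k)
    (X : Finset G.edgeSet) (hne : BN.cyc (inc G) X ≠ ⊥) :
    ∃ z ∈ BN.cyc (inc G) X, z ≠ 0 ∧ BN.MeetsFew (inc G) X (s k) z := by
  classical
  obtain ⟨N, hN, T, B, hT, hconn, hedge, hcard⟩ := hG
  obtain ⟨r, p, dep, hdep, hadj⟩ := BN.tree1_thm N T hT
  have hex : ∀ e : G.edgeSet, ∃ x : N, ∀ v, inc G e v ≠ 0 → v ∈ B x := by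
    rintro ⟨e, he⟩
    induction e with
    | h a b =>
      have hab : G.Adj a b := he
      obtain ⟨x, hx1, hx2⟩ := hedge a b hab
      refine ⟨x, fun v hv => ?_⟩
      simp only [inc, Sym2.mem_iff, ne_eq, ite_eq_right_iff, one_ne_zero, imp_false,
        not_not] at hv
      rcases hv with rfl | rfl
      · exact hx1
      · exact hx2
  choose n hn using hex
  have hfin : 1 ≤ Module.finrank (ZMod 2) (BN.cyc (inc G) X) := by
    rw [Submodule.one_le_finrank_iff]
    exact hne
  obtain ⟨F, hFX, hF1, hF2, hF3⟩ := BN.tree2_thm BN.dim1_thm BN.dim2_thm V G.edgeSet N (inc G) X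
    r p dep B n k hdep
    (below_root r p dep hdep) (fun e _ => inc_link G e) hcard
    (fun e _ v hv => hn e v hv)
    (fun y hy e₁ _ e₂ _ hb₁ hb₂ v hv₁ hv₂ =>
      BN.tree3_thm V N T r p B hadj (fun v => (hconn v).preconnected) y hy (n e₁) (n e₂) hb₁ hb₂ v
        (hn e₁ v hv₁) (hn e₂ v hv₂)) hfin
  rw [← s_eq]
  refine BN.m5_thm BN.q_thm (BN.c3_thm BN.q_thm) BN.gl_thm V G.edgeSet (inc G) X F (expo k)
    (fun e _ => ?_) hFX hF1 hF3 ?_
  · obtain ⟨a, b, _, hab⟩ := inc_link G e
    exact ⟨a, b, hab⟩
  · refine lt_of_le_of_lt ?_ (expo_lt k)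
    exact Nat.mul_le_mul_right _ (by omega)

theorem z2_iff {a : ZMod 2} : a ≠ 0 ↔ a = 1 := by revert a; decide

/-- a basis as a family -/
theorem family {E : Type} [Fintype E] [DecidableEq E] (C : Submodule (ZMod 2) (E → ZMod 2))
    (𝓑 : Finset (E → ZMod 2)) (h : BN.IsBas C 𝓑) :
    ∃ b : Basis (Fin (finrank (ZMod 2) C)) (ZMod 2) C,
      ∀ f : (E → ZMod 2) → ℝ, ∑ i, f (b i) = ∑ z ∈ 𝓑, f z := by
  classical
  let b₁ : Basis 𝓑 (ZMod 2) (Submodule.span (ZMod 2)
    (Set.range (fun z : 𝓑 => (z : E → ZMod 2)))) := Basis.span h.1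
  have hr : Submodule.span (ZMod 2) (Set.range (fun z : 𝓑 => (z : E → ZMod 2))) = C := by
    rw [← h.2]
    congr 1
    ext z
    simp
  let b₂ : Basis 𝓑 (ZMod 2) C := b₁.map (LinearEquiv.ofEq _ _ hr)
  have hb₂ : ∀ i : 𝓑, (b₂ i : E → ZMod 2) = i.1 := by
    intro i
    simp only [b₂, Basis.map_apply, LinearEquiv.coe_ofEq_apply]
    exact congrArg Subtype.val (Basis.span_apply h.1 i)
  have hcard : Fintype.card 𝓑 = finrank (ZMod 2) C := (Module.finrank_eq_card_basis b₂).symm
  let φ : 𝓑 ≃ Fin (finrank (ZMod 2) C) := Fintype.equivFinOfCardEq hcard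
  refine ⟨b₂.reindex φ, fun f => ?_⟩
  rw [← Equiv.sum_comp φ, ← Finset.sum_coe_sort 𝓑 f]
  refine sum_congr rfl fun i _ => ?_
  rw [Basis.reindex_apply, Equiv.symm_apply_apply, hb₂]

/-- the ply as a sum -/
theorem ply_sum {ι : Type} [Fintype ι] [Fintype G.edgeSet]
    (b : Basis ι (ZMod 2) (cycleSpace G)) (e : G.edgeSet) :
    (ply b e : ℝ) = ∑ i, (if (b i : G.edgeSet → ZMod 2) e ≠ 0 then (1 : ℝ) else 0) := by
  classical
  unfold ply
  rw [Nat.card_eq_fintype_card, Fintype.card_subtype, card_filter]
  push_cast
  refine sum_congr rfl fun i _ => ?_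
  by_cases h : (b i : G.edgeSet → ZMod 2) e = 1 <;> simp [z2_iff, h]

/-- **light bases** -/
theorem weights [Fintype G.edgeSet] (k : ℕ) (hG : HasTreeDecomposition G k)
    (w : G.edgeSet → ℝ) (hw : ∀ e, 0 ≤ w e) :
    ∃ b : Basis (Fin (finrank (ZMod 2) (cycleSpace G))) (ZMod 2) (cycleSpace G),
      ∑ e, w e * (ply b e : ℝ) ≤ (s k : ℝ) * ∑ e, w e := by
  classical
  obtain ⟨𝓑, h1, h2⟩ := BN.wt_thm V G.edgeSet (inc G) univ (s k)
    (fun X _ hne => few k hG X hne) w hw
  rw [cyc_univ] at h1
  obtain ⟨b, hb⟩ := family _ 𝓑 h1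
  refine ⟨b, le_trans (le_of_eq ?_) h2⟩
  rw [← hb, sum_comm]
  refine sum_congr rfl fun e _ => ?_
  rw [ply_sum, mul_sum]
  refine sum_congr rfl fun i _ => ?_
  split_ifs <;> simp

end

/-- **Treewidth and the basis number.**  Let `G` be a finite graph of treewidth at most `k`, and
let `s k = 8 log2 (18 k + 7) + 9`.
(1) The basis number of `G` is at most `log2 |E| + 2 s k`.
(2) For all nonnegative weights of the edges there is a basis of the cycle space whose total
weight (the sum of the weights of the members, that is the sum over the edges of weight times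
ply) is at most `s k` times the sum of the weights of the edges.
(3) There are finitely many bases of the cycle space and probabilities for them such that the
expected ply of every edge is at most `s k`.
(4) The infimum in the definition of the treewidth is attained. -/
theorem result :
    (∀ (V : Type) [Fintype V] (G : SimpleGraph V) (k : ℕ), treewidth G ≤ k →
      basisNumber G ≤ Nat.log 2 (Nat.card G.edgeSet) + 2 * s k) ∧
    (∀ (V : Type) [Fintype V] (G : SimpleGraph V) [Fintype G.edgeSet] (k : ℕ), treewidth G ≤ k →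
      ∀ w : G.edgeSet → ℝ, (∀ e, 0 ≤ w e) →
      ∃ b : Basis (Fin (finrank (ZMod 2) (cycleSpace G))) (ZMod 2) (cycleSpace G),
        ∑ e, w e * (ply b e : ℝ) ≤ (s k : ℝ) * ∑ e, w e) ∧
    (∀ (V : Type) [Fintype V] (G : SimpleGraph V) (k : ℕ), treewidth G ≤ k →
      ∃ (m : ℕ)
        (b : Fin m → Basis (Fin (finrank (ZMod 2) (cycleSpace G))) (ZMod 2) (cycleSpace G))
        (μ : Fin m → ℝ), (∀ i, 0 ≤ μ i) ∧ ∑ i, μ i = 1 ∧
        ∀ e, ∑ i, μ i * (ply (b i) e : ℝ) ≤ (s k : ℝ)) ∧
    (∀ (V : Type) [Fintype V] (G : SimpleGraph V), HasTreeDecomposition G (treewidth G)) := by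
  classical
  refine ⟨fun V _ G k hk => ?_, fun V _ G _ k hk w hw => weights k (mono hk (attained G)) w hw,
    fun V _ G k hk => ?_, fun V _ G => attained G⟩
  · obtain ⟨b, hb⟩ := Pool.Agent.Helper36.BN.small_ply
      (ι := Fin (finrank (ZMod 2) (cycleSpace G))) (C := cycleSpace G) (s k) (by
        intro w
        obtain ⟨b, hb⟩ := weights k (mono hk (attained G)) (fun e => (w e : ℝ))
          (fun e => Nat.cast_nonneg _)
        refine ⟨b, ?_⟩
        have h1 : ((∑ i, Pool.Agent.Helper36.BN.wt w (b i : G.edgeSet → ZMod 2) : ℕ) : ℝ) =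
            ∑ e, (w e : ℝ) * (ply b e : ℝ) := by
          rw [Pool.Agent.Helper36.BN.sum_wt]
          push_cast
          refine sum_congr rfl fun e _ => ?_
          rw [mul_comm]
          congr 2
          unfold ply Pool.Agent.Helper36.BN.ply
          rw [Nat.card_eq_fintype_card, Fintype.card_subtype]
          congr 1
          ext i
          simp only [mem_filter, mem_univ, true_and]
          exact z2_iff
        have h2 : ((∑ i, Pool.Agent.Helper36.BN.wt w (b i : G.edgeSet → ZMod 2) : ℕ) : ℝ) ≤
            ((s k * ∑ e, w e : ℕ) : ℝ) := by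
          rw [h1]
          push_cast
          exact hb
        exact_mod_cast h2)
    apply Nat.sInf_le
    refine ⟨b, fun e => ?_⟩
    have h3 := hb e
    have h4 : ply b e = Pool.Agent.Helper36.BN.ply b e := by
      unfold ply Pool.Agent.Helper36.BN.ply
      rw [Nat.card_eq_fintype_card, Fintype.card_subtype]
      congr 1
      ext i
      simp only [mem_filter, mem_univ, true_and]
      exact z2_iff.symm
    rw [h4, Nat.card_eq_fintype_card]
    omega
  · let I := {f : G.edgeSet → ℕ // ∃ b : Basis (Fin (finrank (ZMod 2) (cycleSpace G))) (ZMod 2)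
      (cycleSpace G), f = ply b}
    have hfin : Finite I := by
      have : Finite ((Fin (finrank (ZMod 2) (cycleSpace G))) → (G.edgeSet → ZMod 2)) :=
        inferInstance
      let F : ((Fin (finrank (ZMod 2) (cycleSpace G))) → (G.edgeSet → ZMod 2)) →
          (G.edgeSet → ℕ) := fun y e => Nat.card {i // y i e = 1}
      have hr : (Set.range F).Finite := Set.finite_range F
      have hsub : {f : G.edgeSet → ℕ | ∃ b : Basis (Fin (finrank (ZMod 2) (cycleSpace G)))
          (ZMod 2) (cycleSpace G), f = ply b} ⊆ Set.range F := by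
        rintro f ⟨b, rfl⟩
        exact ⟨fun i => (b i : G.edgeSet → ZMod 2), rfl⟩
      exact (hr.subset hsub).to_subtype
    have : Fintype I := Fintype.ofFinite I
    obtain ⟨ν, h1, h2, h3⟩ := BN.mm_thm I G.edgeSet (fun i e => (i.1 e : ℝ)) (s k : ℝ) (by
      intro w hw
      obtain ⟨b, hb⟩ := weights k (mono hk (attained G)) w hw
      exact ⟨⟨ply b, b, rfl⟩, hb⟩)
    let φ : I ≃ Fin (Fintype.card I) := Fintype.equivFin I
    have hc : ∀ i : I, ∃ b : Basis (Fin (finrank (ZMod 2) (cycleSpace G))) (ZMod 2)
      (cycleSpace G), i.1 = ply b := fun i => i.2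
    choose b hb using hc
    refine ⟨Fintype.card I, fun i => b (φ.symm i), fun i => ν (φ.symm i), fun i => h1 _, ?_,
      fun e => ?_⟩
    · rw [← h2]
      exact Equiv.sum_comp φ.symm ν
    · refine le_trans (le_of_eq ?_) (h3 e)
      rw [← Equiv.sum_comp φ.symm]
      refine sum_congr rfl fun i _ => ?_
      rw [hb]

end Pool.Agent.Results.MP_35885f_co.FractionalTreewidth
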