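import Pool.Agent.H67.LW.All

/-!
# The basis number is at most linear in the treewidth

Full (positive) answer to Q1: every finite graph `G` of treewidth at most `k` satisfies
`bn(G) ≤ 158 (k + 1)`, so `bn(G) ≤ 316 k` for `k ≥ 1`.

All graphs are finite and simple. `cycleSpace G` is the space of the vectors on the edges (values in
the field with two elements) such that every vertex is on an even number of edges with value one,
that is, the edge sets of the Eulerian subgraphs with symmetric difference. `ply b e` is the number
of members of the basis `b` of the cycle space that contain the edge `e`. `basisNumber G` is the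
least `m` such that some basis has all plies at most `m`.

Idea of the proof.  Call connected vertex sets `C` whose neighbourhood is in a bag clusters.  For a
cluster `C` and at most `151 (k + 1)` pairs of neighbours of `C` (requests) one constructs cycles
generating the cycle space of the edges touching `C` and paths joining the pairs, every edge used
at most `158 (k + 1)` times.  Fix a neighbour `h` of `C`.  The descendants `D` of `C` such that
almost all requests have an end that is separated from `h` by `D` form a piece: no three of
the separated sides are disjoint, so the torso of the piece has an order of its edges with all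
boundaries `O(k)` and a basis of circuits few of which pass any given hanging cluster.  Every
hanging cluster leaves at least `48 (k + 1)` requests with both ends on the side of `h`.  For every
neighbour `a` of `C` take two paths from `a` to `h` in the torso that share only separating hanging
clusters (Menger); choose for every end of every request one of its two paths at random.  A
counting argument over the `4 ^ (k + 1)` types of hanging clusters gives a choice for which every
hanging cluster is avoided by `7 (k + 1)` requests, which makes room for the new circuits.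
-/

set_option autoImplicit false

namespace Pool.Agent.Results.MP_35885f_co.LinearInTreewidth

open Finset Module

theorem even_iff {V : Type} [Fintype V] {G : SimpleGraph V} [Fintype G.edgeSet] [DecidableEq V]
    (z : G.edgeSet → ZMod 2) (v : V) :
    Even (Nat.card {e : G.edgeSet // v ∈ (e : Sym2 V) ∧ z e = 1}) ↔
      ∑ e : G.edgeSet, (if v ∈ (e : Sym2 V) then z e else 0) = 0 := by
  classical
  rw [Nat.card_eq_fintype_card, Fintype.card_subtype, ← ZMod.natCast_eq_zero_iff_even,
    card_filter, Nat.cast_sum]
  refine Eq.congr (sum_congr rfl fun e _ => ?_) rfl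
  by_cases h : v ∈ (e : Sym2 V)
  · rcases Pool.Agent.Helper36.BN.z2 (z e) with h' | h' <;> simp [h, h']
  · simp [h]

/-- The cycle space of `G`: a vector `x` on the edges (with values in the field with two elements)
belongs to it if every vertex is on an even number of edges `e` with `x e = 1`. -/
noncomputable def cycleSpace {V : Type} [Fintype V] (G : SimpleGraph V) :
    Submodule (ZMod 2) (G.edgeSet → ZMod 2) where
  carrier := {x | ∀ v : V, Even (Nat.card {e : G.edgeSet // v ∈ (e : Sym2 V) ∧ x e = 1})}
  zero_mem' := by
    intro v
    simp
  add_mem' := by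
    classical
    intro x y hx hy v
    rw [even_iff]
    have h1 := (even_iff x v).1 (hx v)
    have h2 := (even_iff y v).1 (hy v)
    have h3 : ∑ e : G.edgeSet, (if v ∈ (e : Sym2 V) then (x + y) e else 0) =
        ∑ e : G.edgeSet, (if v ∈ (e : Sym2 V) then x e else 0) +
        ∑ e : G.edgeSet, (if v ∈ (e : Sym2 V) then y e else 0) := by
      rw [← sum_add_distrib]
      exact sum_congr rfl fun e _ => by split_ifs <;> simp
    rw [h3, h1, h2, add_zero]
  smul_mem' := by
    intro c x hx v
    rcases Pool.Agent.Helper36.BN.z2 c with h | h
    · subst h; simp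
    · subst h; simpa using hx v

/-- The number of members of the basis `b` of the cycle space that contain the edge `e`. -/
noncomputable def ply {V : Type} [Fintype V] {G : SimpleGraph V} {ι : Type}
    (b : Basis ι (ZMod 2) (cycleSpace G)) (e : G.edgeSet) : ℕ :=
  Nat.card {i : ι // (b i : G.edgeSet → ZMod 2) e = 1}

/-- The basis number: the least `m` such that the cycle space has a basis in which every edge is
in at most `m` members. -/
noncomputable def basisNumber {V : Type} [Fintype V] (G : SimpleGraph V) : ℕ :=
  sInf {m | ∃ b : Basis (Fin (finrank (ZMod 2) (cycleSpace G))) (ZMod 2) (cycleSpace G),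
    ∀ e, ply b e ≤ m}

/-- `G` has a tree decomposition all of whose bags have at most `k + 1` vertices: the bags are
indexed by the nodes of a finite tree, the nodes whose bags contain a given vertex form a nonempty
connected subtree, and the ends of every edge are in a common bag. -/
def HasTreeDecomposition {V : Type} (G : SimpleGraph V) (k : ℕ) : Prop :=
  ∃ (N : Type) (_ : Finite N) (T : SimpleGraph N) (B : N → Finset V), T.IsTree ∧
    (∀ v, (T.induce {x | v ∈ B x}).Connected) ∧
    (∀ v w, G.Adj v w → ∃ x, v ∈ B x ∧ w ∈ B x) ∧
    ∀ x, (B x).card ≤ k + 1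

/-- the treewidth -/
noncomputable def treewidth {V : Type} (G : SimpleGraph V) : ℕ :=
  sInf {k | HasTreeDecomposition G k}

theorem attained {V : Type} [Fintype V] (G : SimpleGraph V) :
    HasTreeDecomposition G (treewidth G) := by
  have hne : {k | HasTreeDecomposition G k}.Nonempty := by
    refine ⟨Fintype.card V, Unit, inferInstance, ⊥, fun _ => univ,
      SimpleGraph.IsTree.of_subsingleton, fun v => ?_, fun v w _ => ⟨(), mem_univ v, mem_univ w⟩,
      fun i => ?_⟩
    · have : Nonempty ({x : Unit | v ∈ (univ : Finset V)} : Set Unit) := ⟨⟨(), mem_univ v⟩⟩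
      exact SimpleGraph.Connected.of_subsingleton
    · rw [card_univ]; omega
  exact Nat.sInf_mem hne

theorem basis_attained {V : Type} [Fintype V] (G : SimpleGraph V) :
    ∃ b : Basis (Fin (finrank (ZMod 2) (cycleSpace G))) (ZMod 2) (cycleSpace G),
      ∀ e, ply b e ≤ basisNumber G := by
  classical
  have hne : {m | ∃ b : Basis (Fin (finrank (ZMod 2) (cycleSpace G))) (ZMod 2) (cycleSpace G),
      ∀ e, ply b e ≤ m}.Nonempty := by
    refine ⟨finrank (ZMod 2) (cycleSpace G), finBasis (ZMod 2) (cycleSpace G), fun e => ?_⟩
    unfold ply
    refine (Nat.card_le_card_of_injective _ Subtype.val_injective).trans ?_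
    simp
  exact Nat.sInf_mem hne

open Pool.Agent.Helper36.BN in
theorem eq_cyc {V : Type} [Fintype V] [DecidableEq V] (G : SimpleGraph V) [Fintype G.edgeSet]
    [DecidableEq G.edgeSet] :
    cyc (LW.gs (G := G)) LW.gt univ = cycleSpace G := by
  symm
  ext x
  have h1 : ∀ v : V, ∀ e : G.edgeSet, x e * inc (LW.gs (G := G)) LW.gt v e =
      if v ∈ (e : Sym2 V) then x e else 0 := by
    intro v e
    have h3 : LW.gs e ≠ LW.gt e := (LW.adj_gs_gt e).ne
    have h4 : v ∈ (e : Sym2 V) ↔ v = LW.gs e ∨ v = LW.gt e := by
      conv_lhs => rw [LW.gs_gt e]
      rw [Sym2.mem_iff]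
    unfold inc
    by_cases h5 : LW.gs e = v
    · have h6 : ¬ LW.gt e = v := fun h => h3 (h5.trans h.symm)
      rw [if_pos h5, if_neg h6, if_pos (h4.2 (Or.inl h5.symm))]
      simp
    · by_cases h6 : LW.gt e = v
      · rw [if_neg h5, if_pos h6, if_pos (h4.2 (Or.inr h6.symm))]
        simp
      · rw [if_neg h5, if_neg h6, if_neg]
        · simp
        · rw [h4]
          rintro (h | h)
          · exact h5 h.symm
          · exact h6 h.symm
  rw [mem_cyc]
  constructor
  · intro hx
    refine ⟨fun e he => absurd (mem_univ e) he, fun v => ?_⟩
    rw [sum_congr rfl fun e _ => h1 v e]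
    exact (even_iff x v).1 (hx v)
  · intro hx v
    rw [even_iff, ← sum_congr rfl fun e _ => h1 v e]
    exact hx.2 v

theorem bound {V : Type} [Fintype V] (G : SimpleGraph V) (k : ℕ)
    (hk : HasTreeDecomposition G k) : basisNumber G ≤ 158 * (k + 1) := by
  classical
  have h := LW.main_thm V G k hk
  rw [eq_cyc] at h
  obtain ⟨b, hb⟩ := h
  apply Nat.sInf_le
  refine ⟨b, fun e => ?_⟩
  refine le_trans (le_of_eq ?_) (hb e)
  unfold ply
  apply Nat.card_congr
  exact Equiv.subtypeEquivRight fun i => Pool.Agent.Helper36.BN.z2_ne.symm

/-- **The basis number is linear in the treewidth** (positive answer to Q1).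
(1) There is an absolute constant `c` such that `bn(G) ≤ c k` for every `k ≥ 1` and every finite
graph `G` of treewidth at most `k`.
(2) Explicitly, `bn(G) ≤ 158 (tw(G) + 1)` for every finite graph.
(3) The minima defining `bn` and `tw` are attained. -/
theorem result :
    (∃ c : ℝ, ∀ (k : ℕ), 1 ≤ k → ∀ (V : Type) [Fintype V] (G : SimpleGraph V),
      treewidth G ≤ k → (basisNumber G : ℝ) ≤ c * k) ∧
    (∀ (V : Type) [Fintype V] (G : SimpleGraph V), basisNumber G ≤ 158 * (treewidth G + 1)) ∧
    (∀ (V : Type) [Fintype V] (G : SimpleGraph V), HasTreeDecomposition G (treewidth G) ∧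
      ∃ b : Basis (Fin (finrank (ZMod 2) (cycleSpace G))) (ZMod 2) (cycleSpace G),
        ∀ e, ply b e ≤ basisNumber G) := by
  refine ⟨⟨316, fun k hk V _ G hG => ?_⟩, fun V _ G => bound G _ (attained G),
    fun V _ G => ⟨attained G, basis_attained G⟩⟩
  have h1 := bound G _ (attained G)
  have h2 : basisNumber G ≤ 316 * k := by omega
  exact_mod_cast h2

end Pool.Agent.Results.MP_35885f_co.LinearInTreewidth
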