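import Pool.Agent.Helper36.BN.Span
import Pool.Agent.Results.MP_35885f_co.LogarithmicPly

/-!
# The basis number is at most the pathwidth plus one

The cycle space, the ply and the basis number are those of the hand-in `LogarithmicPly`:
`cycleSpace G` is the space of the vectors on the edges (values in the field with two elements)
such that every vertex is on an even number of edges with value one; `ply b e` is the number of
members of the basis `b` that contain the edge `e`; `basisNumber G` is the least possible maximum
of the ply over all bases of the cycle space.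

Theorem: `bn(G) ≤ pw(G) + 1`.  The known bound is `bn(G) ≤ 4 pw(G)`.  More generally, if the edges
are ordered such that for every edge `e` at most `w ≥ 1` vertices are on an edge up to `e` and on
an edge after `e`, then `bn(G) ≤ w` (linear width).

Proof: choose a basis for which the sum of the lengths of the intervals between the first and the
last edge of each member is minimal.  Then no two members have the same first edge, and no two the
same last edge.  The members that have an edge up to `e` and an edge after `e` are mapped
injectively to the degrees modulo two of their parts up to `e`, since a cycle with all edges up to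
`e` is a sum of members with this property, and the same for the edges after `e`.
-/

set_option autoImplicit false

namespace Pool.Agent.Results.MP_35885f_co.PathwidthPlusOne

open Finset Module LogarithmicPly

/-- `G` has a path decomposition of width at most `k`: a sequence of bags such that every vertex
is in a bag, the ends of every edge are in a common bag, the bags that contain a given vertex are
consecutive, and every bag has at most `k + 1` vertices. -/
def HasPathDecomposition {V : Type} (G : SimpleGraph V) (k : ℕ) : Prop :=
  ∃ (N : ℕ) (B : Fin N → Finset V), (∀ v, ∃ i, v ∈ B i) ∧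
    (∀ v w, G.Adj v w → ∃ i, v ∈ B i ∧ w ∈ B i) ∧
    (∀ v i j l, i ≤ j → j ≤ l → v ∈ B i → v ∈ B l → v ∈ B j) ∧
    ∀ i, (B i).card ≤ k + 1

/-- the pathwidth -/
noncomputable def pathwidth {V : Type} (G : SimpleGraph V) : ℕ :=
  sInf {k | HasPathDecomposition G k}

/-- the vertices that are on an edge up to `e` and on an edge after `e`, in the order given by
the numbers `f` -/
def boundary {V : Type} {G : SimpleGraph V} (f : G.edgeSet → ℕ) (e : G.edgeSet) : Set V :=
  {v | (∃ e' : G.edgeSet, f e' ≤ f e ∧ v ∈ (e' : Sym2 V)) ∧
    ∃ e' : G.edgeSet, f e < f e' ∧ v ∈ (e' : Sym2 V)}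

theorem mem_out {V : Type} (e : Sym2 V) (v : V) :
    ((Quot.out e).1 = v ∨ (Quot.out e).2 = v) ↔ v ∈ e := by
  have h2 : s((Quot.out e).1, (Quot.out e).2) = e := Quot.out_eq e
  conv_rhs => rw [← h2, Sym2.mem_iff]
  constructor
  · rintro (h | h)
    · exact Or.inl h.symm
    · exact Or.inr h.symm
  · rintro (h | h)
    · exact Or.inl h.symm
    · exact Or.inr h.symm

/-- orderings of the edges -/
theorem linear {V : Type} [Fintype V] (G : SimpleGraph V) (f : G.edgeSet → ℕ)
    (hf : Function.Injective f) (w : ℕ) (hw : 1 ≤ w) (hb : ∀ e, (boundary f e).ncard ≤ w) :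
    basisNumber G ≤ w := by
  classical
  let s : G.edgeSet → V := fun e => (Quot.out (e : Sym2 V)).1
  let t : G.edgeSet → V := fun e => (Quot.out (e : Sym2 V)).2
  have hC : cycleSpace G = Pool.Agent.Helper36.BN.cyc s t univ := eq_cyc G
  have hex : ∃ b : Basis (Fin (finrank (ZMod 2) (cycleSpace G))) (ZMod 2) (cycleSpace G),
      ∀ e, Pool.Agent.Helper36.BN.ply b e ≤
        max 1 (Pool.Agent.Helper36.BN.bdry s t f (f e)).card := by
    rw [hC]
    exact Pool.Agent.Helper36.BN.ply_le s t f hf
  obtain ⟨b, hb'⟩ := hex
  apply Nat.sInf_le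
  refine ⟨b, fun e => ?_⟩
  have h1 : ply b e = Pool.Agent.Helper36.BN.ply b e := by
    unfold ply Pool.Agent.Helper36.BN.ply
    rw [Nat.card_eq_fintype_card, Fintype.card_subtype]
    congr 1
    ext i
    simp only [mem_filter, mem_univ, true_and]
    exact Pool.Agent.Helper36.BN.z2_ne.symm
  rw [h1]
  refine (hb' e).trans (max_le hw ?_)
  refine le_trans (le_of_eq ?_) (hb e)
  rw [← Set.ncard_coe_finset]
  congr 1
  ext v
  simp only [Pool.Agent.Helper36.BN.bdry, coe_filter, mem_univ, true_and, Set.mem_ofPred_eq,
    boundary, s, t, mem_out]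

/-- **The basis number is at most the pathwidth plus one.**
(1) `bn(G) ≤ pw(G) + 1` for every finite simple graph `G`.
(2) If the edges have an order (given by different numbers `f e`) such that for every edge `e` at
most `w` vertices, `w ≥ 1`, are on an edge up to `e` and on an edge after `e`, then `bn(G) ≤ w`.
(3) The infimum in the definition of the pathwidth is attained. -/
theorem result :
    (∀ (V : Type) [Fintype V] (G : SimpleGraph V), basisNumber G ≤ pathwidth G + 1) ∧
    (∀ (V : Type) [Fintype V] (G : SimpleGraph V) (f : G.edgeSet → ℕ), Function.Injective f →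
      ∀ w : ℕ, 1 ≤ w → (∀ e, (boundary f e).ncard ≤ w) → basisNumber G ≤ w) ∧
    (∀ (V : Type) [Fintype V] (G : SimpleGraph V), HasPathDecomposition G (pathwidth G)) := by
  have h3 : ∀ (V : Type) [Fintype V] (G : SimpleGraph V),
      HasPathDecomposition G (pathwidth G) := by
    intro V _ G
    have hne : {k | HasPathDecomposition G k}.Nonempty := by
      refine ⟨Fintype.card V, 1, fun _ => univ, fun v => ⟨0, mem_univ v⟩,
        fun v w _ => ⟨0, mem_univ v, mem_univ w⟩, fun v i j l _ _ _ _ => mem_univ v,
        fun i => ?_⟩
      rw [card_univ]; omega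
    exact Nat.sInf_mem hne
  refine ⟨fun V _ G => ?_, fun V _ G f hf w hw hb => linear G f hf w hw hb, h3⟩
  classical
  obtain ⟨N, B, -, hE, hint, hcard⟩ := h3 V G
  have hbag : ∀ e : G.edgeSet, ∃ i, ∀ v ∈ (e : Sym2 V), v ∈ B i := by
    rintro ⟨e, he⟩
    induction e with
    | h v w =>
      obtain ⟨i, hv, hw⟩ := hE v w he
      refine ⟨i, fun u hu => ?_⟩
      rcases Sym2.mem_iff.1 hu with h | h
      · rw [h]; exact hv
      · rw [h]; exact hw
  choose τ hτ using hbag
  let φ : G.edgeSet ≃ Fin (Fintype.card G.edgeSet) := Fintype.equivFin _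
  let M := Fintype.card G.edgeSet
  let f : G.edgeSet → ℕ := fun e => (τ e : ℕ) * M + (φ e : ℕ)
  have hφ : ∀ e, (φ e : ℕ) < M := fun e => (φ e).2
  have hmono : ∀ e e', f e ≤ f e' → τ e ≤ τ e' := by
    intro e e' h
    by_contra hc
    rw [not_le] at hc
    have h1 : (τ e' : ℕ) + 1 ≤ τ e := hc
    have h2 := Nat.mul_le_mul_right M h1
    have h3 := hφ e'
    simp only [f] at h
    rw [add_mul] at h2
    omega
  have hf : Function.Injective f := by
    intro e e' h
    have h1 := le_antisymm (hmono e e' h.le) (hmono e' e h.ge)
    simp only [f, h1] at h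
    apply φ.injective
    apply Fin.ext
    omega
  apply linear G f hf _ (by omega)
  intro e
  refine le_trans ?_ (hcard (τ e))
  rw [← Set.ncard_coe_finset]
  apply Set.ncard_le_ncard _ (finite_toSet _)
  rintro v ⟨⟨e₁, h₁, hv₁⟩, e₂, h₂, hv₂⟩
  exact hint v (τ e₁) (τ e) (τ e₂) (hmono _ _ h₁) (hmono _ _ h₂.le) (hτ e₁ v hv₁) (hτ e₂ v hv₂)

end Pool.Agent.Results.MP_35885f_co.PathwidthPlusOne
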